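import Pool.Agent.X41.Alt3.Main

set_option autoImplicit false

/-!
# A solvable variety of alternative algebras of characteristic three without a finite basis

Over every field `K` of characteristic three there is a variety of alternative (even commutative)
`K`-algebras, solvable with third derived power zero (`B^{(4)} = 0` in the numbering
`B^{(1)} = B`), which is not defined by any finite set of identities.
-/

namespace Pool.Agent.Results.MP_e7684b_al.CharThreeNegative

open Pool.Agent.X41.Inf3 Pool.Agent.X41.Alt3

universe u

/-- **Negative answer to Q1**, over every field of characteristic three. -/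
theorem result :
    (∃ (K : Type) (_ : Field K), CharP K 3) ∧
    ∀ (K : Type u) [Field K] [CharP K 3],
      ∃ S : Set (FreeNonUnitalNonAssocAlgebra K ℕ),
        (∀ (B : Type u) [NonUnitalNonAssocRing B] [Module K B] [IsScalarTower K B B]
          [SMulCommClass K B B], Models K S B →
            IsAlternative B ∧ (∀ x y : B, x * y = y * x) ∧ der K B 3 = ⊥) ∧
        ¬ ∃ S' : Set (FreeNonUnitalNonAssocAlgebra K ℕ), S'.Finite ∧
          ∀ (B : Type u) [NonUnitalNonAssocRing B] [Module K B] [IsScalarTower K B B]
            [SMulCommClass K B B], Models K S' B ↔ Models K S B := by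
  refine ⟨⟨ZMod 3, inferInstance, inferInstance⟩, ?_⟩
  intro K _ _
  obtain ⟨S, h1, h2⟩ := main K
  refine ⟨S, ?_, h2⟩
  intro B _ _ _ _ hB
  obtain ⟨a, b, c⟩ := h1 B hB
  exact ⟨a, b.1, c⟩

end Pool.Agent.Results.MP_e7684b_al.CharThreeNegative
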